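import Pool.Agent.Q261.CFD.QPow

/-!
# The number of intervals in the dimension spectrum of the `q`-th powers is unbounded

`Q261.CFD.J F` (in `Pool.Agent.Q261.CFD.Basic`) is the set of irrational numbers of `(0,1)` all of
whose continued fraction digits `⌊1 / G ^ n x⌋`, with `G` the Gauss map, lie in `F`.
-/

set_option autoImplicit false

namespace Pool.Agent.Results.MP_d09e6d_nt.ManyIntervals

open Set Filter Topology MeasureTheory Q261.CFD
open scoped ENNReal NNReal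

/-- the `q`-th powers `1, 2 ^ q, 3 ^ q, ...` -/
def M (q : ℕ) : Set ℕ := {a | ∃ m : ℕ, 1 ≤ m ∧ a = m ^ q}

/-- the dimension spectrum of `A` -/
noncomputable def DS (A : Set ℕ) : Set ℝ :=
  {d | ∃ F : Set ℕ, F.Nonempty ∧ F ⊆ A ∧ d = (dimH (J F)).toReal}

/-- the number of connected components of the dimension spectrum of the `q`-th powers -/
noncomputable def N (q : ℕ) : ℕ∞ := ENat.card (ConnectedComponents (DS (M q)))

lemma dimH_ne_top (F : Set ℕ) : dimH (J F) ≠ ⊤ := by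
  have h : dimH (J F) ≤ 1 := (dimH_mono (subset_univ _)).trans Real.dimH_univ.le
  exact ne_top_of_le_ne_top ENNReal.one_ne_top h

/-- the point of the spectrum of the pair `{1, m ^ q}` -/
noncomputable def pt (q m : ℕ) (hm : 1 ≤ m) : DS (M q) :=
  ⟨(dimH (J {1, m ^ q})).toReal, {1, m ^ q}, by simp, by
    rintro a (rfl | rfl)
    · exact ⟨1, le_rfl, (one_pow _).symm⟩
    · exact ⟨m, hm, rfl⟩, rfl⟩

lemma real_gap {q n : ℕ} (hn : 2 ≤ n) (hq : 1 ≤ q) {u v : ℝ≥0} (huv : u < v)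
    (h1 : ∀ m, 2 ≤ m → m ≤ n → (v : ℝ≥0∞) ≤ dimH (J {1, m ^ q}))
    (h2 : ∀ F : Set ℕ, (∀ a ∈ F, ∃ m : ℕ, 1 ≤ m ∧ a = m ^ q) →
      (1 ∉ F ∨ ∀ m, 2 ≤ m → m ≤ n → m ^ q ∉ F) → dimH (J F) ≤ u) :
    ∃ c : ℝ, IsClopen {x : DS (M q) | (x : ℝ) < c} ∧
      (∀ m (hm : 2 ≤ m), m ≤ n → ¬ ((pt q m (by omega) : DS (M q)) : ℝ) < c) ∧
      (∀ m (hm : n + 1 ≤ m), ((pt q m (by omega) : DS (M q)) : ℝ) < c) := by
  have low : ∀ m, 2 ≤ m → m ≤ n → (v : ℝ) ≤ (dimH (J {1, m ^ q})).toReal := fun m hm hmn => by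
    have := ENNReal.toReal_mono (dimH_ne_top _) (h1 m hm hmn)
    rwa [ENNReal.coe_toReal] at this
  have key : ∀ F : Set ℕ, F ⊆ M q → (dimH (J F)).toReal ≤ u ∨ (v : ℝ) ≤ (dimH (J F)).toReal := by
    intro F hF
    by_cases h : 1 ∉ F ∨ ∀ m, 2 ≤ m → m ≤ n → m ^ q ∉ F
    · left
      exact ENNReal.toReal_le_coe_of_le_coe (h2 F hF h)
    · push Not at h
      obtain ⟨h3, m, hm, hmn, h4⟩ := h
      right
      refine (low m hm hmn).trans (ENNReal.toReal_mono (dimH_ne_top _) (dimH_mono (J_mono ?_)))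
      rintro a (rfl | rfl)
      · exact h3
      · exact h4
  have huv' : (u : ℝ) < v := by exact_mod_cast huv
  refine ⟨v, ⟨?_, ?_⟩, fun m hm hmn => not_lt.2 (low m hm hmn), fun m hm => ?_⟩
  · have : {x : DS (M q) | (x : ℝ) < v} = {x : DS (M q) | (x : ℝ) ≤ u} := by
      ext ⟨x, F, -, hF, rfl⟩
      simp only [Set.mem_ofPred_eq]
      rcases key F hF with h | h
      · exact ⟨fun _ => h, fun _ => h.trans_lt huv'⟩
      · exact ⟨fun h' => absurd h' (not_lt.2 h), fun h' => absurd (h.trans h') (not_le.2 huv')⟩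
    rw [this]
    exact isClosed_le continuous_subtype_val continuous_const
  · exact isOpen_lt continuous_subtype_val continuous_const
  · refine (ENNReal.toReal_le_coe_of_le_coe (h2 {1, m ^ q} ?_ (Or.inr ?_))).trans_lt huv'
    · rintro a (rfl | rfl)
      · exact ⟨1, le_rfl, (one_pow _).symm⟩
      · exact ⟨m, by omega, rfl⟩
    · rintro k hk hkn (h | h)
      · have := Nat.one_lt_pow (n := q) (by omega) (show 1 < k by omega)
        omega
      · have := Nat.pow_left_injective (by omega) h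
        omega

lemma many (C : ℕ) {q : ℕ} (hq : 1 ≤ q) (h : ∀ n, 2 ≤ n → n ≤ C + 2 → ∃ u v : ℝ≥0, u < v ∧
    (∀ m, 2 ≤ m → m ≤ n → (v : ℝ≥0∞) ≤ dimH (J {1, m ^ q})) ∧
    (∀ F : Set ℕ, (∀ a ∈ F, ∃ m : ℕ, 1 ≤ m ∧ a = m ^ q) →
      (1 ∉ F ∨ ∀ m, 2 ≤ m → m ≤ n → m ^ q ∉ F) → dimH (J F) ≤ u)) : (C : ℕ∞) < N q := by
  have h1 : Function.Injective (fun i : Fin (C + 1) =>
      (ConnectedComponents.mk (pt q (i + 2) (by omega)) : ConnectedComponents (DS (M q)))) := by
    have main : ∀ i j : Fin (C + 1), i < j →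
        (ConnectedComponents.mk (pt q (i + 2) (by omega)) : ConnectedComponents (DS (M q))) ≠
        ConnectedComponents.mk (pt q (j + 2) (by omega)) := by
      intro i j hij heq
      obtain ⟨u, v, huv, h2, h3⟩ := h (i + 2) (by omega) (by omega)
      obtain ⟨c, hc, h4, h5⟩ := real_gap (by omega) hq huv h2 h3
      have hj := h5 (j + 2) (by have : (i : ℕ) < j := hij; omega)
      have hi := h4 (i + 2) (by omega) le_rfl
      rw [ConnectedComponents.coe_eq_coe] at heq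
      have h6 : connectedComponent (pt q (j + 2) (by omega)) ⊆ {x : DS (M q) | (x : ℝ) < c} :=
        hc.connectedComponent_subset hj
      apply hi
      apply h6
      rw [← heq]
      exact mem_connectedComponent
    intro i j hij
    by_contra hne
    rcases lt_or_gt_of_ne hne with h2 | h2
    · exact main i j h2 hij
    · exact main j i h2 hij.symm
  have h2 := ENat.card_le_card_of_injective h1
  rw [ENat.card_eq_coe_fintype_card, Fintype.card_fin] at h2
  refine lt_of_lt_of_le ?_ h2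
  exact_mod_cast Nat.lt_succ_self C

/-- **Main result**: for every `C`, all large `q` have `N q > C`. -/
theorem result : ∀ C : ℕ, ∀ᶠ q : ℕ in atTop, (C : ℕ∞) < N q := by
  intro C
  have h : ∀ᶠ q : ℕ in atTop, ∀ n ∈ Finset.Icc 2 (C + 2), ∃ u v : ℝ≥0, u < v ∧
      (∀ m, 2 ≤ m → m ≤ n → (v : ℝ≥0∞) ≤ dimH (J {1, m ^ q})) ∧
      (∀ F : Set ℕ, (∀ a ∈ F, ∃ m : ℕ, 1 ≤ m ∧ a = m ^ q) →
        (1 ∉ F ∨ ∀ m, 2 ≤ m → m ≤ n → m ^ q ∉ F) → dimH (J F) ≤ u) := by
    rw [Filter.eventually_all_finset]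
    intro n hn
    exact gap n (Finset.mem_Icc.1 hn).1
  filter_upwards [h, eventually_ge_atTop 1] with q hq hq1
  exact many C hq1 fun n h1 h2 => hq n (Finset.mem_Icc.2 ⟨h1, h2⟩)

end Pool.Agent.Results.MP_d09e6d_nt.ManyIntervals
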